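import Pool.Agent.H10.Qh

set_option autoImplicit false

namespace Pool.Agent.Results.MP_c4712b_ag.NotQuasihom

open Pool.Agent.H10.Qh

/-- Q1 of MP_c4712b_ag is disproved: there is a polynomial `p` whose zero surface is contractible
and has an isolated singular point (in fact all its singular points are isolated), such that no
polynomial automorphism makes `p` quasihomogeneous; the surface is not even carried by a polynomial
automorphism to the zero set of any quasihomogeneous polynomial. -/
theorem result : ∃ p : Poly, ContractibleSpace (Z p) ∧ (∃ v, IsIsolatedSing (Z p) v) ∧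
    (∀ v ∈ singLocus (Z p), IsIsolatedSing (Z p) v) ∧
    (∀ α : Poly ≃ₐ[ℂ] Poly, ¬ IsQuasihomogeneous (α p)) ∧
    ∀ (α : Poly ≃ₐ[ℂ] Poly) (q : Poly), IsQuasihomogeneous q → Z (α p) ≠ Z q :=
  main

end Pool.Agent.Results.MP_c4712b_ag.NotQuasihom
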